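import Pool.Agent.X55.HZ.Stm

/-! Project HZ, part EUL (helper219, backup): Euler trails in directed multigraphs. -/

set_option autoImplicit false

namespace Pool.Agent.X219.HZ

open Finset Pool.Agent.X55.HZ

variable {n m : ℕ}

/-- one edge -/
def e (k : Fin m) (x y : Fin n) : Fin m → Fin n → Fin n → ℕ :=
  fun k' x' y' => if k' = k ∧ x' = x ∧ y' = y then 1 else 0

/-- trails with exact edge usage -/
inductive Tr : (Fin m → Fin n → Fin n → ℕ) → Fin n → Fin n → Prop
  | nil (x : Fin n) : Tr 0 x x
  | cons {k : Fin m} {x y z : Fin n} {g : Fin m → Fin n → Fin n → ℕ} (w : Tr g y z) :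
      Tr (g + e k x y) x z

theorem e_out (k0 : Fin m) (x0 y0 z : Fin n) :
    ∑ k, ∑ y, e k0 x0 y0 k z y = if z = x0 then 1 else 0 := by
  simp [e, ite_and]

theorem e_in (k0 : Fin m) (x0 y0 z : Fin n) :
    ∑ k, ∑ x, e k0 x0 y0 k x z = if z = y0 then 1 else 0 := by
  simp [e, ite_and]

theorem e_col (k0 : Fin m) (x0 y0 : Fin n) (k : Fin m) :
    ∑ x, ∑ y, e k0 x0 y0 k x y = if k = k0 then 1 else 0 := by
  simp [e, ite_and]

theorem e_tot (k0 : Fin m) (x0 y0 : Fin n) :
    ∑ k, ∑ x, ∑ y, e k0 x0 y0 k x y = 1 := by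
  simp [e, ite_and]

theorem tr_flow {g : Fin m → Fin n → Fin n → ℕ} {u v : Fin n} (h : Tr g u v) : Flow g u v := by
  induction h with
  | nil x => intro z; simp
  | @cons k x y z g w ih =>
    intro t
    have h1 := ih t
    simp only [Pi.add_apply, Finset.sum_add_distrib, e_out, e_in]
    omega

theorem tr_append {g1 g2 : Fin m → Fin n → Fin n → ℕ} {u v z : Fin n} (h1 : Tr g1 u z)
    (h2 : Tr g2 z v) : Tr (g1 + g2) u v := by
  induction h1 with
  | nil x => simpa using h2
  | @cons k x y z g w ih =>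
    have := Tr.cons (k := k) (x := x) (ih h2)
    rwa [add_right_comm] at this

theorem tr_one (k : Fin m) (x y : Fin n) : Tr (e k x y) x y := by
  have := Tr.cons (k := k) (x := x) (Tr.nil (m := m) y)
  simpa using this

/-- visited vertices -/
def Vis (g : Fin m → Fin n → Fin n → ℕ) (u z : Fin n) : Prop :=
  z = u ∨ ∃ k a, g k a z ≠ 0 ∨ g k z a ≠ 0

theorem tr_split {g : Fin m → Fin n → Fin n → ℕ} {u v : Fin n} (h : Tr g u v) (z : Fin n)
    (hz : Vis g u z) : ∃ g1 g2, g = g1 + g2 ∧ Tr g1 u z ∧ Tr g2 z v := by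
  induction h with
  | nil x =>
    rcases hz with rfl | ⟨k, a, h | h⟩
    · exact ⟨0, 0, by simp, Tr.nil _, Tr.nil _⟩
    · exact absurd rfl h
    · exact absurd rfl h
  | @cons k x y t g w ih =>
    by_cases hzx : z = x
    · subst hzx
      exact ⟨0, g + e k z y, by simp, Tr.nil _, Tr.cons w⟩
    have hv : Vis g y z := by
      rcases hz with h | ⟨k', a, h | h⟩
      · exact absurd h hzx
      · by_cases hy : z = y
        · exact Or.inl hy
        · right
          refine ⟨k', a, Or.inl ?_⟩
          intro h0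
          apply h
          simp [e, h0, hy]
      · right
        refine ⟨k', a, Or.inr ?_⟩
        intro h0
        apply h
        simp [e, h0, hzx]
    obtain ⟨g1, g2, rfl, t1, t2⟩ := ih hv
    exact ⟨g1 + e k x y, g2, by rw [add_right_comm], Tr.cons t1, t2⟩

theorem wk_mono {E E' : Fin m → Fin n → Fin n → Prop} (hE : ∀ k x y, E k x y → E' k x y)
    {α : Fin m → ℕ} {u v : Fin n} (h : Wk E α u v) : Wk E' α u v := by
  induction h with
  | nil x => exact Wk.nil x
  | cons h w ih => exact Wk.cons (hE _ _ _ h) ih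

theorem tr_wk {g : Fin m → Fin n → Fin n → ℕ} {u v : Fin n} (h : Tr g u v) :
    Wk (fun k x y => g k x y ≠ 0) (fun k => ∑ x, ∑ y, g k x y) u v := by
  induction h with
  | nil x =>
    have : (fun k : Fin m => ∑ x : Fin n, ∑ y : Fin n, (0 : Fin m → Fin n → Fin n → ℕ) k x y) = 0 := by
      funext k; simp
    rw [this]
    exact Wk.nil x
  | @cons k x y t g w ih =>
    have e1 : (fun k' : Fin m => ∑ a : Fin n, ∑ b : Fin n, (g + e k x y) k' a b)
        = (fun k' => ∑ a, ∑ b, g k' a b) + Pi.single k 1 := by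
      funext k'
      simp only [Pi.add_apply, Finset.sum_add_distrib, e_col, Pi.single_apply]
    rw [e1]
    refine Wk.cons (y := y) ?_ (wk_mono ?_ ih)
    · simp [e]
    · intro k' a b h
      simp only [Pi.add_apply]
      omega

/-- total number of edges -/
def tot (g : Fin m → Fin n → Fin n → ℕ) : ℕ := ∑ k, ∑ x, ∑ y, g k x y

theorem tot_add (g h : Fin m → Fin n → Fin n → ℕ) : tot (g + h) = tot g + tot h := by
  simp [tot, Finset.sum_add_distrib]

theorem tot_mono {g h : Fin m → Fin n → Fin n → ℕ} (hh : g ≤ h) : tot g ≤ tot h :=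
  Finset.sum_le_sum fun k _ => Finset.sum_le_sum fun x _ => Finset.sum_le_sum fun y _ => hh k x y

theorem tot_e (k : Fin m) (x y : Fin n) : tot (e k x y) = 1 := e_tot k x y

theorem extend {f : Fin m → Fin n → Fin n → ℕ} {u v : Fin n} (hf : Flow f u v) :
    ∀ (N : ℕ) (g : Fin m → Fin n → Fin n → ℕ) (x : Fin n), g ≤ f → Tr g u x →
      tot f - tot g ≤ N → ∃ g', g ≤ g' ∧ g' ≤ f ∧ Tr g' u v := by
  intro N
  induction N with
  | zero =>
    intro g x hg ht hN
    by_cases hx : x = v
    · subst hx; exact ⟨g, le_rfl, hg, ht⟩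
    exfalso
    have h1 := hf x
    have h2 := tr_flow ht x
    rw [if_neg hx] at h1
    rw [if_pos rfl] at h2
    have h3 : ∑ k, ∑ a, g k a x ≤ ∑ k, ∑ a, f k a x :=
      Finset.sum_le_sum fun k _ => Finset.sum_le_sum fun a _ => hg k a x
    have h4 : ∑ k, ∑ y, g k x y < ∑ k, ∑ y, f k x y := by omega
    obtain ⟨k, -, hk⟩ := Finset.exists_lt_of_sum_lt h4
    obtain ⟨b, -, hb⟩ := Finset.exists_lt_of_sum_lt hk
    have h5 : g + e k x b ≤ f := by
      intro k' a' b'
      simp only [Pi.add_apply, e]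
      split_ifs with h
      · obtain ⟨rfl, rfl, rfl⟩ := h; omega
      · simpa using hg k' a' b'
    have h6 := tot_mono h5
    rw [tot_add, tot_e] at h6
    omega
  | succ N ih =>
    intro g x hg ht hN
    by_cases hx : x = v
    · subst hx; exact ⟨g, le_rfl, hg, ht⟩
    have h1 := hf x
    have h2 := tr_flow ht x
    rw [if_neg hx] at h1
    rw [if_pos rfl] at h2
    have h3 : ∑ k, ∑ a, g k a x ≤ ∑ k, ∑ a, f k a x :=
      Finset.sum_le_sum fun k _ => Finset.sum_le_sum fun a _ => hg k a x
    have h4 : ∑ k, ∑ y, g k x y < ∑ k, ∑ y, f k x y := by omega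
    obtain ⟨k, -, hk⟩ := Finset.exists_lt_of_sum_lt h4
    obtain ⟨b, -, hb⟩ := Finset.exists_lt_of_sum_lt hk
    have h5 : g + e k x b ≤ f := by
      intro k' a' b'
      simp only [Pi.add_apply, e]
      split_ifs with h
      · obtain ⟨rfl, rfl, rfl⟩ := h; omega
      · simpa using hg k' a' b'
    have h6 := tot_mono h5
    rw [tot_add, tot_e] at h6
    obtain ⟨g', a1, a2, a3⟩ := ih (g + e k x b) b h5 (tr_append ht (tr_one k x b))
      (by rw [tot_add, tot_e]; omega)
    refine ⟨g', le_trans ?_ a1, a2, a3⟩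
    intro k' a' b'
    simp

theorem euler {f : Fin m → Fin n → Fin n → ℕ} {u v : Fin n}
    (hc : ∀ x y, Relation.ReflTransGen (fun a b => ∃ k, f k a b ≠ 0) x y) (hf : Flow f u v) :
    ∀ (N : ℕ) (g : Fin m → Fin n → Fin n → ℕ), g ≤ f → Tr g u v → tot f - tot g ≤ N → Tr f u v := by
  have key : ∀ g : Fin m → Fin n → Fin n → ℕ, g ≤ f → Tr g u v → g ≠ f →
      ∃ g', g' ≤ f ∧ Tr g' u v ∧ tot g < tot g' := by
    intro g hg ht hne
    -- an unused edge leaving a visited vertex
    have hex : ∃ k p q, Vis g u p ∧ g k p q < f k p q := by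
      by_contra hno
      push Not at hno
      have hall : ∀ z, Vis g u z := by
        intro z
        have := hc u z
        induction this with
        | refl => exact Or.inl rfl
        | @tail b c _ hbc ih =>
          obtain ⟨k, hk⟩ := hbc
          have h1 := hno k b c ih
          exact Or.inr ⟨k, b, Or.inl (by omega)⟩
      apply hne
      funext k a b
      exact le_antisymm (hg k a b) (hno k a b (hall a))
    obtain ⟨k, p, q, hp, hpq⟩ := hex
    obtain ⟨h, rfl⟩ : ∃ h, f = g + h := ⟨fun k a b => f k a b - g k a b, by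
      funext k a b
      simp only [Pi.add_apply]
      have : g k a b ≤ f k a b := hg k a b
      omega⟩
    have hfl : Flow h p p := by
      intro z
      have h1 := hf z
      have h2 := tr_flow ht z
      simp only [Pi.add_apply, Finset.sum_add_distrib] at h1
      omega
    have he : e k p q ≤ h := by
      intro k' a' b'
      simp only [e]
      split_ifs with h'
      · obtain ⟨rfl, rfl, rfl⟩ := h'
        simp only [Pi.add_apply] at hpq
        omega
      · simp
    obtain ⟨g', a1, a2, a3⟩ := extend hfl _ (e k p q) q he (tr_one k p q) le_rfl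
    obtain ⟨g1, g2, rfl, t1, t2⟩ := tr_split ht p hp
    refine ⟨g1 + (g' + g2), ?_, tr_append t1 (tr_append a3 t2), ?_⟩
    · intro k' a' b'
      have : g' k' a' b' ≤ h k' a' b' := a2 k' a' b'
      simp only [Pi.add_apply]
      omega
    · have := tot_mono a1
      rw [tot_e] at this
      simp only [tot_add]
      omega
  intro N
  induction N with
  | zero =>
    intro g hg ht hN
    by_cases hne : g = f
    · exact hne ▸ ht
    obtain ⟨g', b1, b2, b3⟩ := key g hg ht hne
    have := tot_mono b1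
    omega
  | succ N ih =>
    intro g hg ht hN
    by_cases hne : g = f
    · exact hne ▸ ht
    obtain ⟨g', b1, b2, b3⟩ := key g hg ht hne
    exact ih g' b1 b2 (by omega)

theorem t_EUL : Pool.Agent.X55.HZ.S_EUL := by
  intro n m f u v hc hf
  obtain ⟨g, -, hg, ht⟩ := extend hf _ 0 u (fun _ _ _ => Nat.zero_le _) (Tr.nil u) le_rfl
  exact tr_wk (euler hc hf _ g hg ht le_rfl)

end Pool.Agent.X219.HZ
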